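import Mathlib
import Pool.Agent.H5.Gob1

namespace Pool.Agent.Results.MP_d9e015_nt.Yes

theorem result (x : ℕ → ℚ) (h0 : x 0 = 1)
    (hx : ∀ n, 1 ≤ n → x n = (1 + ∑ k ∈ Finset.range n, x k ^ 2) / n) (n : ℕ) :
    Odd (x n).den :=
  Pool.Agent.H5.Gob.main x h0 hx n

end Pool.Agent.Results.MP_d9e015_nt.Yes
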